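import Pool.Agent.helper36.HK.Spec

set_option autoImplicit false

open Finset
open Pool.Agent.FI

noncomputable section

namespace Pool.Agent.HK

/-- the twisted character -/
def PNP_chi (ψ : ℤ × ℤ → ℂ) (j : ℕ) (z : ℤ × ℤ) : ℂ :=
  if z.1 % 2 = 1 then ψ z * (-1) ^ (j * z.2.natAbs) else 0

theorem PNP_sg (j a b : ℕ) (h : a % 2 = b % 2) : (-1 : ℂ) ^ (j * a) = (-1) ^ (j * b) := by
  rw [neg_one_pow_eq_pow_mod_two, neg_one_pow_eq_pow_mod_two (n := j * b)]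
  have : j * a % 2 = j * b % 2 := by rw [Nat.mul_mod, h, ← Nat.mul_mod]
  rw [this]

theorem PNP_norm (d : ℕ) (ψ : ℤ × ℤ → ℂ) (h : IsRC d ψ) (j : ℕ) (z : ℤ × ℤ) : ‖PNP_chi ψ j z‖ ≤ 1 := by
  unfold PNP_chi
  split_ifs
  · have h1 : ‖ψ z‖ ≤ 1 := by
      by_cases hc : Nat.Coprime (nn z) d
      · exact (h.2.2.2.1 z hc).le
      · rw [h.2.2.1 z hc]
        simp
    rw [norm_mul, norm_pow, norm_neg, norm_one, one_pow, mul_one]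
    exact h1
  · simp

theorem PNP_per (d : ℕ) (ψ : ℤ × ℤ → ℂ) (h : IsRC d ψ) (j : ℕ) (z w : ℤ × ℤ)
    (h1 : ((2 * d : ℕ) : ℤ) ∣ z.1 - w.1) (h2 : ((2 * d : ℕ) : ℤ) ∣ z.2 - w.2) :
    PNP_chi ψ j z = PNP_chi ψ j w := by
  obtain ⟨a, ha⟩ := h1
  obtain ⟨b, hb⟩ := h2
  push_cast at ha hb
  have e1 : z.1 - w.1 = 2 * ((d : ℤ) * a) := by rw [ha]; ring
  have e2 : z.2 - w.2 = 2 * ((d : ℤ) * b) := by rw [hb]; ring
  have hψ : ψ z = ψ w := h.2.1 z w ⟨2 * a, by rw [ha]; ring⟩ ⟨2 * b, by rw [hb]; ring⟩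
  unfold PNP_chi
  rw [hψ, PNP_sg j z.2.natAbs w.2.natAbs (by omega)]
  have hp : z.1 % 2 = w.1 % 2 := by omega
  rw [hp]

theorem PNP_N8 (z w : ℤ × ℤ) : N8 (mul8 z w) = N8 z * N8 w := by
  unfold N8 mul8
  ring

theorem PNP_mul (d : ℕ) (ψ : ℤ × ℤ → ℂ) (h : IsRC d ψ) (j : ℕ) (w v : ℤ × ℤ) (hw : w.1 % 2 = 1) :
    PNP_chi ψ j (mul8 w v) = PNP_chi ψ j w * PNP_chi ψ j v := by
  obtain ⟨p, hp⟩ : ∃ p, w.1 = 2 * p + 1 := ⟨w.1 / 2, by omega⟩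
  unfold PNP_chi
  rw [if_pos hw]
  by_cases hv : v.1 % 2 = 1
  · obtain ⟨q, hq⟩ : ∃ q, v.1 = 2 * q + 1 := ⟨v.1 / 2, by omega⟩
    have e1 : (mul8 w v).1 = 2 * (2 * p * q + p + q + 4 * w.2 * v.2) + 1 := by
      simp only [mul8]
      rw [hp, hq]
      ring
    have e2 : (mul8 w v).2 = w.2 + v.2 + 2 * (p * v.2 + q * w.2) := by
      simp only [mul8]
      rw [hp, hq]
      ring
    have h3 : (mul8 w v).1 % 2 = 1 := by omega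
    rw [if_pos h3, if_pos hv, h.1 w v,
      PNP_sg j (mul8 w v).2.natAbs (w.2.natAbs + v.2.natAbs) (by omega), mul_add, pow_add]
    ring
  · obtain ⟨q, hq⟩ : ∃ q, v.1 = 2 * q := ⟨v.1 / 2, by omega⟩
    have e1 : (mul8 w v).1 = 2 * (w.1 * q + 4 * w.2 * v.2) := by
      simp only [mul8]
      rw [hq]
      ring
    have h3 : ¬ (mul8 w v).1 % 2 = 1 := by omega
    rw [if_neg h3, if_neg hv, mul_zero]

/-- multiplication by `w` modulo `D` -/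
def PNP_T (D : ℕ) (w : ℤ × ℤ) (v : ℕ × ℕ) : ℕ × ℕ :=
  (((mul8 w ((v.1 : ℤ), (v.2 : ℤ))).1 % (D : ℤ)).toNat, ((mul8 w ((v.1 : ℤ), (v.2 : ℤ))).2 % (D : ℤ)).toNat)

theorem PNP_Tval (D : ℕ) (hD : 0 < D) (w : ℤ × ℤ) (v : ℕ × ℕ) :
    ((PNP_T D w v).1 : ℤ) = (mul8 w ((v.1 : ℤ), (v.2 : ℤ))).1 % (D : ℤ) ∧
    ((PNP_T D w v).2 : ℤ) = (mul8 w ((v.1 : ℤ), (v.2 : ℤ))).2 % (D : ℤ) := by
  have hD' : (D : ℤ) ≠ 0 := by exact_mod_cast hD.ne'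
  unfold PNP_T
  exact ⟨Int.toNat_of_nonneg (Int.emod_nonneg _ hD'), Int.toNat_of_nonneg (Int.emod_nonneg _ hD')⟩

theorem PNP_Tmem (D : ℕ) (hD : 0 < D) (w : ℤ × ℤ) (v : ℕ × ℕ) : PNP_T D w v ∈ range D ×ˢ range D := by
  have hD' : (0 : ℤ) < (D : ℤ) := by exact_mod_cast hD
  obtain ⟨h1, h2⟩ := PNP_Tval D hD w v
  have h3 := Int.emod_lt_of_pos (mul8 w ((v.1 : ℤ), (v.2 : ℤ))).1 hD'
  have h4 := Int.emod_lt_of_pos (mul8 w ((v.1 : ℤ), (v.2 : ℤ))).2 hD'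
  rw [← h1] at h3
  rw [← h2] at h4
  rw [mem_product, mem_range, mem_range]
  exact ⟨by exact_mod_cast h3, by exact_mod_cast h4⟩

theorem PNP_cancel (D : ℤ) (w : ℤ × ℤ) (hc : IsCoprime (N8 w) D) (a b : ℤ)
    (h1 : D ∣ w.1 * a + 8 * w.2 * b) (h2 : D ∣ w.1 * b + w.2 * a) : D ∣ a ∧ D ∣ b := by
  have e1 : D ∣ N8 w * a := by
    have : N8 w * a = w.1 * (w.1 * a + 8 * w.2 * b) - 8 * w.2 * (w.1 * b + w.2 * a) := by
      unfold N8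
      ring
    rw [this]
    exact dvd_sub (Dvd.dvd.mul_left h1 _) (Dvd.dvd.mul_left h2 _)
  have e2 : D ∣ N8 w * b := by
    have : N8 w * b = w.1 * (w.1 * b + w.2 * a) - w.2 * (w.1 * a + 8 * w.2 * b) := by
      unfold N8
      ring
    rw [this]
    exact dvd_sub (Dvd.dvd.mul_left h2 _) (Dvd.dvd.mul_left h1 _)
  exact ⟨hc.symm.dvd_of_dvd_mul_left e1, hc.symm.dvd_of_dvd_mul_left e2⟩

theorem PNP_eq_of_dvd (D a b : ℕ) (ha : a < D) (hb : b < D) (h : (D : ℤ) ∣ (a : ℤ) - b) : a = b := by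
  have h1 : (a : ℤ) ≡ b [ZMOD D] := (Int.modEq_iff_dvd.2 (by
    rw [← dvd_neg, neg_sub]
    exact h))
  have h2 : a ≡ b [MOD D] := (Int.natCast_modEq_iff).1 h1
  exact Nat.ModEq.eq_of_lt_of_lt h2 ha hb

theorem PNP_Tinj (D : ℕ) (hD : 0 < D) (w : ℤ × ℤ) (hc : IsCoprime (N8 w) (D : ℤ)) :
    Set.InjOn (PNP_T D w) (range D ×ˢ range D : Finset (ℕ × ℕ)) := by
  intro v hv v' hv' he
  have hv1 := mem_product.1 (mem_coe.1 hv)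
  have hv2 := mem_product.1 (mem_coe.1 hv')
  rw [mem_range, mem_range] at hv1 hv2
  obtain ⟨h1, h2⟩ := PNP_Tval D hD w v
  obtain ⟨h3, h4⟩ := PNP_Tval D hD w v'
  rw [he, h3] at h1
  rw [he, h4] at h2
  have e1 := Int.ModEq.dvd (show (mul8 w ((v'.1 : ℤ), (v'.2 : ℤ))).1 ≡ (mul8 w ((v.1 : ℤ), (v.2 : ℤ))).1 [ZMOD D] from h1)
  have e2 := Int.ModEq.dvd (show (mul8 w ((v'.1 : ℤ), (v'.2 : ℤ))).2 ≡ (mul8 w ((v.1 : ℤ), (v.2 : ℤ))).2 [ZMOD D] from h2)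
  have k := PNP_cancel (D : ℤ) w hc ((v.1 : ℤ) - v'.1) ((v.2 : ℤ) - v'.2)
    (by
      have : w.1 * ((v.1 : ℤ) - v'.1) + 8 * w.2 * ((v.2 : ℤ) - v'.2) =
          (mul8 w ((v.1 : ℤ), (v.2 : ℤ))).1 - (mul8 w ((v'.1 : ℤ), (v'.2 : ℤ))).1 := by
        simp only [mul8]
        ring
      rw [this]
      exact e1)
    (by
      have : w.1 * ((v.2 : ℤ) - v'.2) + w.2 * ((v.1 : ℤ) - v'.1) =
          (mul8 w ((v.1 : ℤ), (v.2 : ℤ))).2 - (mul8 w ((v'.1 : ℤ), (v'.2 : ℤ))).2 := by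
        simp only [mul8]
        ring
      rw [this]
      exact e2)
  exact Prod.ext (PNP_eq_of_dvd D _ _ hv1.1 hv2.1 k.1) (PNP_eq_of_dvd D _ _ hv1.2 hv2.2 k.2)

theorem PNP_sum (d : ℕ) (hd : Odd d) (ψ : ℤ × ℤ → ℂ) (h : IsRC d ψ) (j : ℕ) (w : ℤ × ℤ) (hw : w.1 % 2 = 1)
    (hwc : IsCoprime (N8 w) (d : ℤ)) (hne : PNP_chi ψ j w ≠ 1) :
    ∑ v ∈ range (2 * d) ×ˢ range (2 * d), PNP_chi ψ j ((v.1 : ℤ), (v.2 : ℤ)) = 0 := by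
  have hD : 0 < 2 * d := by
    have := hd.pos
    omega
  have hc2 : IsCoprime (N8 w) (2 : ℤ) := by
    obtain ⟨p, hp⟩ : ∃ p, w.1 = 2 * p + 1 := ⟨w.1 / 2, by omega⟩
    refine ⟨1, -(2 * p ^ 2 + 2 * p - 4 * w.2 ^ 2), ?_⟩
    unfold N8
    rw [hp]
    ring
  have hc : IsCoprime (N8 w) ((2 * d : ℕ) : ℤ) := by
    push_cast
    exact hc2.mul_right hwc
  have hinj := PNP_Tinj (2 * d) hD w hc
  have hmaps : ∀ v ∈ range (2 * d) ×ˢ range (2 * d), PNP_T (2 * d) w v ∈ range (2 * d) ×ˢ range (2 * d) :=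
    fun v _ => PNP_Tmem (2 * d) hD w v
  have hsurj : Set.SurjOn (PNP_T (2 * d) w) (range (2 * d) ×ˢ range (2 * d) : Finset (ℕ × ℕ))
      (range (2 * d) ×ˢ range (2 * d) : Finset (ℕ × ℕ)) :=
    Finset.surjOn_of_injOn_of_card_le _ hmaps hinj le_rfl
  have key : ∑ v ∈ range (2 * d) ×ˢ range (2 * d), PNP_chi ψ j w * PNP_chi ψ j ((v.1 : ℤ), (v.2 : ℤ)) =
      ∑ v ∈ range (2 * d) ×ˢ range (2 * d), PNP_chi ψ j ((v.1 : ℤ), (v.2 : ℤ)) := by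
    refine Finset.sum_nbij (PNP_T (2 * d) w) hmaps hinj hsurj (fun v _ => ?_)
    rw [← PNP_mul d ψ h j w _ hw]
    obtain ⟨h1, h2⟩ := PNP_Tval (2 * d) hD w v
    refine PNP_per d ψ h j _ _ ?_ ?_
    · simp only []
      rw [h1]
      exact Int.dvd_self_sub_emod
    · simp only []
      rw [h2]
      exact Int.dvd_self_sub_emod
  rw [← Finset.mul_sum] at key
  have h0 : (PNP_chi ψ j w - 1) * ∑ v ∈ range (2 * d) ×ˢ range (2 * d), PNP_chi ψ j ((v.1 : ℤ), (v.2 : ℤ)) = 0 := by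
    rw [sub_mul, key, one_mul, sub_self]
  rcases mul_eq_zero.1 h0 with h1 | h1
  · exact absurd (sub_eq_zero.1 h1) hne
  · exact h1

theorem PNP_cop (d : ℕ) (z : ℤ × ℤ) (h : Nat.Coprime (nn z) d) : IsCoprime (N8 z) (d : ℤ) := by
  rw [Int.isCoprime_iff_gcd_eq_one, Int.gcd]
  simpa [nn] using h

theorem PNP_exw (d : ℕ) (hd : Odd d) (ψ : ℤ × ℤ → ℂ) (h : IsRC d ψ) (j : ℕ) (hj : j ≤ 1)
    (hex : (∃ z, Nat.Coprime (nn z) d ∧ ψ z ≠ 1) ∨ j = 1) :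
    ∃ w : ℤ × ℤ, w.1 % 2 = 1 ∧ IsCoprime (N8 w) (d : ℤ) ∧ PNP_chi ψ j w ≠ 1 := by
  by_cases hj1 : j = 1
  · subst hj1
    refine ⟨(1, d), by norm_num, ⟨1, 8 * d, by unfold N8; ring⟩, ?_⟩
    have h1 : ψ (1, (d : ℤ)) = ψ (1, 0) := h.2.1 _ _ (by simp) (by simp)
    have h2 : ψ (1, 0) = 1 := h.2.2.2.2 1 isCoprime_one_left
    unfold PNP_chi
    rw [if_pos (by norm_num), h1, h2]
    simp only [one_mul, Int.natAbs_natCast]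
    rw [hd.neg_one_pow]
    norm_num
  · have hj0 : j = 0 := by omega
    subst hj0
    obtain ⟨z, hz, hne⟩ := hex.resolve_right hj1
    by_cases hz1 : z.1 % 2 = 1
    · refine ⟨z, hz1, PNP_cop d z hz, ?_⟩
      unfold PNP_chi
      rw [if_pos hz1]
      simpa using hne
    · obtain ⟨e, he⟩ := hd
      have hodd : (z.1 + (d : ℤ)) % 2 = 1 := by
        have : (d : ℤ) = 2 * e + 1 := by exact_mod_cast he
        omega
      have hψ : ψ (z.1 + (d : ℤ), z.2) = ψ z := h.2.1 _ _ (by simp) (by simp)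
      refine ⟨(z.1 + d, z.2), hodd, ?_, ?_⟩
      · have h1 := PNP_cop d z hz
        have h2 : N8 (z.1 + (d : ℤ), z.2) = N8 z + (2 * z.1 + d) * d := by
          unfold N8
          ring
        rw [h2]
        exact IsCoprime.add_mul_right_left h1 _
      · unfold PNP_chi
        rw [if_pos hodd, hψ]
        simpa using hne

theorem PNP_supp (i : ℕ) (κ : ℝ) (y : ℕ) (z : ℤ × ℤ) (h : Fy i κ y z ≠ 0) :
    |z.1| ≤ ((2 * y : ℕ) : ℤ) ∧ |z.2| ≤ ((2 * y : ℕ) : ℤ) := by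
  unfold Fy at h
  have hc : (4 * |z.2| < z.1 ∨ |z.1| < 2 * z.2) ∧ nn z ≤ y := by
    by_contra hcon
    exact h (if_neg hcon)
  obtain ⟨hc1, hc2⟩ := hc
  have hN : |N8 z| ≤ (y : ℤ) := by
    have : ((nn z : ℕ) : ℤ) ≤ (y : ℤ) := by exact_mod_cast hc2
    unfold nn at this
    rwa [Int.natCast_natAbs] at this
  have hN1 := (abs_le.1 hN).1
  have hN2 := (abs_le.1 hN).2
  unfold N8 at hN1 hN2
  have s1 : z.1 ^ 2 = |z.1| ^ 2 := (sq_abs _).symm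
  have s2 : z.2 ^ 2 = |z.2| ^ 2 := (sq_abs _).symm
  rw [s1, s2] at hN1 hN2
  have p1 := abs_nonneg z.1
  have p2 := abs_nonneg z.2
  push_cast
  rcases hc1 with hc1 | hc1
  · have ha : z.1 ≤ |z.1| := le_abs_self _
    have hlt : 4 * |z.2| < |z.1| := lt_of_lt_of_le hc1 ha
    have h1 : |z.1| ^ 2 ≤ 2 * y := by nlinarith
    have h2 : |z.1| ≤ 2 * y := by nlinarith
    exact ⟨h2, by linarith⟩
  · have hl : z.2 ≤ |z.2| := le_abs_self _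
    have hlt : |z.1| < 2 * |z.2| := by linarith
    have h1 : 4 * |z.2| ^ 2 ≤ y := by nlinarith
    have h2 : |z.2| ≤ y := by nlinarith
    exact ⟨by linarith, by linarith⟩

open scoped Classical in
theorem PNP_id (ψ : ℤ × ℤ → ℂ) (j i : ℕ) (κ : ℝ) (y : ℕ) :
    ∑ z ∈ FF y, HC ψ j i κ z = ∑ z ∈ Bx (2 * y), PNP_chi ψ j z * Fy i κ y z := by
  unfold FF Bx
  rw [Finset.sum_filter]
  push_cast
  refine Finset.sum_congr rfl (fun z _ => ?_)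
  unfold PNP_chi Fy Fd HC
  by_cases h1 : z.1 % 2 = 1
  · by_cases h2 : (4 * |z.2| < z.1 ∨ |z.1| < 2 * z.2) ∧ nn z ≤ y
    · rw [if_pos ⟨⟨h1, h2.1⟩, h2.2⟩, if_pos h1, if_pos h2]
      ring
    · rw [if_neg (fun h => h2 ⟨h.1.2, h.2⟩), if_neg h2, mul_zero]
  · rw [if_neg (fun h => h1 h.1.1), if_neg h1, zero_mul]

theorem PNP (hVAR : VAR_stmt) (hVAB : VAB_stmt) (_hSIZ : SIZ_stmt) : PNP_stmt := by
  obtain ⟨C, hC, hV⟩ := hVAB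
  refine ⟨8 * C, by positivity, ?_⟩
  intro d hd ψ hψ j i hj κ hex y
  obtain ⟨w, hw1, hw2, hw3⟩ := PNP_exw d hd ψ hψ j hj hex
  rw [PNP_id]
  have hD : 0 < 2 * d := by
    have := hd.pos
    omega
  have h1 := hVAR (2 * d) hD (PNP_chi ψ j) (PNP_norm d ψ hψ j) (PNP_per d ψ hψ j)
    (PNP_sum d hd ψ hψ j w hw1 hw2 hw3) (2 * y) (Fy i κ y) (PNP_supp i κ y)
  refine h1.trans ?_
  have h2 := hV i κ y (2 * y)
  have h3 : (1 + |κ|) ≤ (1 + |κ|) ^ 3 := by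
    have : 0 ≤ |κ| := abs_nonneg κ
    nlinarith [mul_nonneg this this, mul_nonneg (mul_nonneg this this) this]
  have h4 : 0 ≤ √(y : ℝ) := Real.sqrt_nonneg _
  calc (((2 * d : ℕ) : ℝ)) ^ 3 * Va (Fy i κ y) (2 * y)
      ≤ (((2 * d : ℕ) : ℝ)) ^ 3 * (C * (1 + |κ|) * √(y : ℝ)) := mul_le_mul_of_nonneg_left h2 (by positivity)
    _ = 8 * C * (d : ℝ) ^ 3 * √(y : ℝ) * (1 + |κ|) := by push_cast; ring
    _ ≤ 8 * C * (d : ℝ) ^ 3 * √(y : ℝ) * (1 + |κ|) ^ 3 := mul_le_mul_of_nonneg_left h3 (by positivity)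
    _ = 8 * C * ((d : ℝ) * (1 + |κ|)) ^ 3 * √(y : ℝ) := by ring

end Pool.Agent.HK
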